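import Pool.Agent.Helper5.SX.St

/-! # Project SX: module CYC -/

set_option autoImplicit false

namespace SX

open Finset
open scoped Classical

theorem walk_of_rtg {V : Type} {R : V → V → Prop} {a b : V} (h : Relation.ReflTransGen R a b) :
    ∃ n : ℕ, ∃ p : ℕ → V, p 0 = a ∧ p n = b ∧ ∀ i < n, R (p i) (p (i + 1)) := by
  induction h with
  | refl => exact ⟨0, fun _ => a, rfl, rfl, fun i hi => absurd hi (Nat.not_lt_zero i)⟩
  | @tail b' c' _ hbc ih =>
    obtain ⟨n, p, h0, hn, hp⟩ := ih
    refine ⟨n + 1, fun i => if i ≤ n then p i else c', ?_, ?_, ?_⟩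
    · simp [h0]
    · simp
    · intro i hi
      by_cases h1 : i < n
      · have h2 : i ≤ n := h1.le
        have h3 : i + 1 ≤ n := h1
        simp only [h2, h3, if_true]
        exact hp i h1
      · have h2 : i = n := by omega
        subst h2
        simp only [le_refl, if_true, Nat.not_succ_le_self, if_false]
        rw [hn]
        exact hbc

theorem hCYC : StCYC := by
  intro V _ r C x x' hx hx' hne hr h
  have hex : ∃ n : ℕ, ∃ p : ℕ → V, p 0 = x' ∧ p n = x ∧
      ∀ i < n, (p (i + 1) ∈ C ∧ r (p i) (p (i + 1))) := walk_of_rtg h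
  set n := Nat.find hex with hn
  obtain ⟨p, h0, hpn, hp⟩ := Nat.find_spec hex
  rw [← hn] at hpn hp
  have hmin : ∀ m < n, ¬ ∃ p : ℕ → V, p 0 = x' ∧ p m = x ∧
      ∀ i < m, (p (i + 1) ∈ C ∧ r (p i) (p (i + 1))) := fun m hm => Nat.find_min hex hm
  have hinj : ∀ i j, i < j → j ≤ n → p i ≠ p j := by
    intro i j hij hjn hpe
    apply hmin (n - (j - i)) (by omega)
    refine ⟨fun t => if t ≤ i then p t else p (t + (j - i)), ?_, ?_, ?_⟩
    · simp [h0]
    · by_cases h1 : n - (j - i) ≤ i
      · have h2 : n - (j - i) = i := by omega
        have h3 : j = n := by omega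
        simp only [h2, le_refl, if_true]
        rw [hpe, h3, hpn]
      · simp only [h1, if_false]
        have h2 : n - (j - i) + (j - i) = n := by omega
        rw [h2, hpn]
    · intro t ht
      by_cases h1 : t < i
      · have h2 : t ≤ i := h1.le
        have h3 : t + 1 ≤ i := h1
        simp only [h2, h3, if_true]
        exact hp t (by omega)
      · by_cases h2 : t = i
        · subst h2
          simp only [le_refl, if_true, Nat.not_succ_le_self, if_false]
          have h3 := hp j (by omega)
          rw [hpe]
          have h4 : t + 1 + (j - t) = j + 1 := by omega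
          rw [h4]
          exact h3
        · have h3 : ¬ t ≤ i := by omega
          have h4 : ¬ t + 1 ≤ i := by omega
          simp only [h3, h4, if_false]
          have h5 := hp (t + (j - i)) (by omega)
          have h6 : t + 1 + (j - i) = t + (j - i) + 1 := by omega
          rw [h6]
          exact h5
  have hinj' : ∀ i j, i ≤ n → j ≤ n → p i = p j → i = j := by
    intro i j hi hj hij
    rcases lt_trichotomy i j with h1 | h1 | h1
    · exact absurd hij (hinj i j h1 hj)
    · exact h1
    · exact absurd hij.symm (hinj j i h1 hi)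
  have hC : ∀ i ≤ n, p i ∈ C := by
    intro i hi
    cases i with
    | zero => rw [h0]; exact hx'
    | succ i => exact (hp i (by omega)).1
  let xs : List V := (List.range (n + 1)).map p
  have hlen : xs.length = n + 1 := by simp [xs]
  have hget : ∀ i (hi : i < xs.length), xs[i] = p i := by
    intro i hi
    simp [xs]
  have hnd : xs.Nodup := by
    apply List.Nodup.map_on _ List.nodup_range
    intro i hi j hj hij
    rw [List.mem_range] at hi hj
    exact hinj' i j (by omega) (by omega) hij
  refine ⟨xs.formPerm, ?_, ?_⟩
  · have h1 := List.formPerm_apply_getElem xs hnd n (by omega)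
    rw [hget, hget] at h1
    rw [hpn] at h1
    rw [h1, hlen, Nat.mod_self, h0]
  · intro v hv
    have hvm : v ∈ xs := by
      by_contra hcon
      exact hv (List.formPerm_apply_of_notMem hcon)
    obtain ⟨i, hi, hiv⟩ := List.getElem_of_mem hvm
    have h1 := List.formPerm_apply_getElem xs hnd i hi
    rw [hiv] at h1
    rw [hget] at hiv h1
    rw [h1]
    rw [hlen] at hi
    by_cases h2 : i = n
    · subst h2
      have h3 : (n + 1) % xs.length = 0 := by rw [hlen]; exact Nat.mod_self _
      rw [h3, h0, ← hiv, hpn]
      exact ⟨hx, hx', hr⟩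
    · have h3 : (i + 1) % xs.length = i + 1 := by
        rw [hlen]
        exact Nat.mod_eq_of_lt (by omega)
      rw [h3, ← hiv]
      exact ⟨hC i (by omega), hC (i + 1) (by omega), (hp i (by omega)).2⟩

end SX
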