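import Pool.Agent.Helper5.SX.St

/-! # Project SX: modules MN and NUM -/

set_option autoImplicit false

namespace SX

open Finset
open scoped Classical

theorem hMN (hEXM : StEXM) (hFRM : StFRM) (hNUM : StNUM) (hFNB : StFNB) : StMN := by
  intro c0 hc0
  obtain ⟨C0, hC0, h⟩ := hFNB c0 hc0
  refine ⟨C0, hC0, ?_⟩
  intro V _ A hk
  by_contra hcon
  push Not at hcon
  obtain ⟨A', c, y, l, rfl, hmin⟩ := hEXM V A hcon
  obtain ⟨t0, t1, h1, h2⟩ := h A'.D A'.k hk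
  obtain ⟨C, L, hF⟩ := hFRM V A' c y l t0 t1 hmin h1
  exact h2 _ _ _ _ _ _ _ _ _ _ _ (hNUM V A' c y l t0 t1 C L hF)

theorem hNUM (hBFB : StBFB) (hCZ : StCZ) (hRPC : StRPC) (hTYA : StTYA) (hTYB : StTYB)
    (hAVG : StAVG) (hHBD : StHBD) (hFUL : StFUL) (hCCI : StCCI) (hSIW : StSIW) (hNCT : StNCT)
    (hBDB : StBDB) : StNUM := by
  intro V _ A c y l t0 t1 C L hF
  have hmx := hF.st.mx
  have hst := hmx.st
  have hl : 0 < l := (hCZ V A c y l hmx).1
  have hGS : Gd A c y l t0 t1 ⊆ Sb A c y l := filter_subset _ _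
  have hTG : G2 A c y l t0 t1 L ⊆ Gd A c y l t0 t1 := filter_subset _ _
  have hgood : ∀ B ∈ Gd A c y l t0 t1, A.k ≤ (Rp A c y l t0 B).card + t1 ∧
      (Rp A c y l t0 B).card ≤ A.k ∧ (Rp A c y l t0 B \ C B).card ≤ A.D + t0 ∧
      (Rp A c y l t0 B \ C B).card + (Tn A c y l (C B)).card + (L B).card ≤
        (Rp A c y l t0 B).card := by
    intro B hB
    have h1 := hRPC V A c y l t0 hst hl B (hGS hB)
    have h2 : 1 + kap A y l B + (Xb A c y l t0 B).card ≤ t1 := (mem_filter.1 hB).2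
    obtain ⟨h3, h4, h5, h6⟩ := hHBD V A c y l t0 t1 C L hF B hB
    refine ⟨by omega, by omega, h3, by omega⟩
  refine ⟨⟨A.b A.u, mem_insert_self _ _⟩, hGS, hTG, hgood, ?_, ?_, ?_, ?_, ?_, ?_, ?_⟩
  · intro B hB hBT
    have h1 : ¬ Ty2 A c y l (L B) := fun h => hBT (mem_filter.2 ⟨hB, h⟩)
    have h2 := hTYA V A c y l t0 t1 C L hF B hB h1
    have h3 := (hgood B hB).2.2.2
    omega
  · intro B hB
    have hB1 := hTG hB
    have hB2 : Ty2 A c y l (L B) := (mem_filter.1 hB).2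
    obtain ⟨h3, h4, h5, h6⟩ := hHBD V A c y l t0 t1 C L hF B hB1
    have hu : A.u ∈ KM A c y l := by
      refine mem_filter.2 ⟨(hBFB V A c y l hst hl).1, ?_⟩
      exact mem_filter.2 ⟨mem_univ _, Or.inl rfl⟩
    have h7 := hTYB V A c y l t0 t1 C L hF B hB1 hB2 A.u hu
    have h8 : (L B \ A.N A.u).card ≤ (L B).card := card_le_card sdiff_subset
    refine ⟨h6, ?_, hAVG V A c y l t0 t1 C L hF B hB1 hB2⟩
    omega
  · exact hFUL V A c y l hmx
  · have h1 := hCCI V A c y l t0 t1 C L hF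
    have h2 : ∑ B ∈ Gd A c y l t0 t1, ((Rp A c y l t0 B).card - (Rp A c y l t0 B \ C B).card) =
        ∑ B ∈ Gd A c y l t0 t1, (C B).card := by
      apply sum_congr rfl
      intro B hB
      have := (hHBD V A c y l t0 t1 C L hF B hB).2.2.1
      omega
    rw [h2]
    exact h1
  · exact hSIW V A c y l t0 t1 C L hF
  · have h1 := hNCT V A c y l t0 t1 C L hF
    have h2 : ∑ B ∈ G2 A c y l t0 t1 L, (Tv A c y l (C B)).card ≤
        ∑ B ∈ Gd A c y l t0 t1, (Tv A c y l (C B)).card :=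
      sum_le_sum_of_subset hTG
    omega
  · exact hBDB V A c y l t0 t1 hst hl

end SX
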