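import Pool.Agent.Helper5.SX.GL
import Pool.Agent.Helper5.SX.M_MN
import Pool.Agent.Helper16.SX.M_TRM
import Pool.Agent.Helper16.SX.M_HBD
import Pool.Agent.Helper5.SX.M_CYC
import Pool.Agent.Helper2.SX.M_BFA
import Pool.Agent.Helper2.SX.M_BFB
import Pool.Agent.Helper62.SX.M_VAL
import Pool.Agent.Helper4.SX.M_SWU
import Pool.Agent.Helper28.SX.M_SWO
import Pool.Agent.Helper8.SX.M_REC
import Pool.Agent.Helper8.SX.M_CZ
import Pool.Agent.Helper8.SX.M_EXM
import Pool.Agent.Helper8.SX.M_RPC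
import Pool.Agent.Helper8.SX.M_BDB
import Pool.Agent.Helper8.SX.M_FNA
import Pool.Agent.Helper83.SX.M_ROT
import Pool.Agent.Helper83.SX.M_CLC
import Pool.Agent.Helper26.SX.M_FCD
import Pool.Agent.Helper72.SX.M_EXS
import Pool.Agent.Helper84.SX.M_FRM
import Pool.Agent.Helper40.SX.M_UNF
import Pool.Agent.Helper54.SX.M_CLA
import Pool.Agent.Helper54.SX.M_NCT
import Pool.Agent.Helper95.SX.M_CLB
import Pool.Agent.Helper79.SX.M_TYA
import Pool.Agent.Helper42.SX.M_TYB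
import Pool.Agent.Helper42.SX.M_FUL
import Pool.Agent.Helper90.SX.M_AVG
import Pool.Agent.Helper87.SX.M_CCI
import Pool.Agent.Helper60.SX.M_SIW
import Pool.Agent.Helper80.SX.M_PB
import Pool.Agent.Helper91.SX.M_FNB

/-! # Project SX: assembly -/

set_option autoImplicit false

namespace SX

theorem main : StGL := by
  have TRM : StTRM := Pool.Agent.Helper16.SX.hTRM
  have CYC : StCYC := hCYC
  have BFA : StBFA := Pool.Agent.Helper2.SX.hBFA
  have BFB : StBFB := Pool.Agent.Helper2.SX.hBFB BFA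
  have VAL : StVAL := Pool.Agent.Helper62.SX.hVAL
  have SWU : StSWU := Pool.Agent.Helper4.SX.hSWU
  have SWO : StSWO := Pool.Agent.Helper28.SX.hSWO BFA
  have REC : StREC := Pool.Agent.Helper8.SX.hREC SWU SWO
  have CZ : StCZ := Pool.Agent.Helper8.SX.hCZ BFA VAL SWU REC
  have EXM : StEXM := Pool.Agent.Helper8.SX.hEXM BFA
  have ROT : StROT := Pool.Agent.Helper83.SX.hROT BFA
  have FCD : StFCD := Pool.Agent.Helper26.SX.hFCD
  have EXS : StEXS := Pool.Agent.Helper72.SX.hEXS BFA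
  have RPC : StRPC := Pool.Agent.Helper8.SX.hRPC BFA BFB
  have BDB : StBDB := Pool.Agent.Helper8.SX.hBDB BFB EXS
  have FRM : StFRM := Pool.Agent.Helper84.SX.hFRM TRM CZ RPC
  have UNF : StUNF := Pool.Agent.Helper40.SX.hUNF BFA BFB CZ
  have CLA : StCLA := Pool.Agent.Helper54.SX.hCLA CYC BFA CZ ROT FCD RPC
  have CLB : StCLB := Pool.Agent.Helper95.SX.hCLB CYC BFA BFB CZ ROT UNF
  have CLC : StCLC := Pool.Agent.Helper83.SX.hCLC CYC FCD RPC CZ ROT UNF CLA
  have TYA : StTYA := Pool.Agent.Helper79.SX.hTYA FCD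
  have TYB : StTYB := Pool.Agent.Helper42.SX.hTYB FCD UNF CLA
  have AVG : StAVG := Pool.Agent.Helper90.SX.hAVG FCD CLB TYB
  have HBD : StHBD := Pool.Agent.Helper16.SX.hHBD FCD CLC
  have FUL : StFUL := Pool.Agent.Helper42.SX.hFUL BFB CZ
  have CCI : StCCI := Pool.Agent.Helper87.SX.hCCI BFB CLA
  have SIW : StSIW := Pool.Agent.Helper60.SX.hSIW BFB CZ CLA CLC
  have NCT : StNCT := Pool.Agent.Helper54.SX.hNCT BFB CZ UNF
  have PB : StPB := Pool.Agent.Helper80.SX.hPB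
  have FNA : StFNA := Pool.Agent.Helper8.SX.hFNA PB
  have FNB : StFNB := Pool.Agent.Helper91.SX.hFNB FNA
  have NUM : StNUM := hNUM BFB CZ RPC TYA TYB AVG HBD FUL CCI SIW NCT BDB
  exact hGL (hMN EXM FRM NUM FNB)

end SX
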