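import Mathlib

/-!
# Project SX (MP_7b75b3_co): definitions

Strong colouring with `c * Δ + C` colours, `c > (3 + sqrt 5) / 2`.

`V` is the (finite) vertex set, `b v` is the block of `v`, `N v` is the set of the neighbours of `v`
outside its own block, every block has exactly `k` vertices and `D` bounds the degrees.
A labelling `c : V → ℕ` is injective on blocks; labels `< k` are colours, labels `≥ k` are blank
(the vertex is uncoloured, blank labels never conflict).
-/

set_option autoImplicit false

namespace SX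

open Finset
open scoped Classical

/-- Blocks of size `k` and neighbourhoods (outside the own block) of size at most `D`. -/
structure Sys (V : Type) [Fintype V] where
  b : V → ℕ
  N : V → Finset V
  k : ℕ
  D : ℕ
  symm : ∀ v w, w ∈ N v → v ∈ N w
  out : ∀ v w, w ∈ N v → b w ≠ b v
  deg : ∀ v, (N v).card ≤ D
  blk : ∀ v, (univ.filter (fun w => b w = b v)).card = k

/-- A system with a vertex `u` and a colour `al`. -/
structure Dat (V : Type) [Fintype V] extends Sys V where
  u : V
  al : ℕ

variable {V : Type} [Fintype V]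

/-- `c` is a labelling: injective on blocks and no conflict between colours (labels `< k`). -/
structure Lab (A : Sys V) (c : V → ℕ) : Prop where
  inj : ∀ v w, A.b v = A.b w → c v = c w → v = w
  prop : ∀ v w, w ∈ A.N v → c w = c v → A.k ≤ c v

/-- Number of coloured vertices. -/
noncomputable def cnt (A : Sys V) (c : V → ℕ) : ℕ := (univ.filter (fun v => c v < A.k)).card

/-- `c` is a labelling with the maximum number of coloured vertices, `u` is uncoloured and the
colour `al` does not occur in the block of `u`. -/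
structure Base (A : Dat V) (c : V → ℕ) : Prop where
  lab : Lab A.toSys c
  blank : A.k ≤ c A.u
  lt : A.al < A.k
  miss : ∀ v, A.b v = A.b A.u → c v ≠ A.al
  max : ∀ c' : V → ℕ, Lab A.toSys c' → cnt A.toSys c' ≤ cnt A.toSys c

/-- The marks: `u` and the vertices of colour `al` (at most one in every block). -/
noncomputable def Mk (A : Dat V) (c : V → ℕ) : Finset V :=
  univ.filter (fun v => v = A.u ∨ c v = A.al)

/-- `v` is available: `v = u`, or `v` is no mark and its label may be given to the mark of its
block (it is blank or no neighbour of the mark has this colour). -/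
def Av (A : Dat V) (c : V → ℕ) (v : V) : Prop :=
  v = A.u ∨ (c v ≠ A.al ∧
    ∀ m ∈ Mk A c, A.b m = A.b v → ∀ z ∈ A.N m, c z = c v → A.k ≤ c v)

/-- The neighbours of `v` of colour `al`. -/
noncomputable def Lf (A : Dat V) (c : V → ℕ) (v : V) : Finset V :=
  (A.N v).filter (fun z => c z = A.al)

/-- The union of the stars `{y i} ∪ Lf (y i)`, `i < l`. -/
noncomputable def Kset (A : Dat V) (c : V → ℕ) (y : ℕ → V) (l : ℕ) : Finset V :=
  (range l).biUnion (fun i => insert (y i) (Lf A c (y i)))

/-- The blocks reached by the first `l` stars: the block of `u` and the blocks of the leaves. -/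
noncomputable def Sb (A : Dat V) (c : V → ℕ) (y : ℕ → V) (l : ℕ) : Finset ℕ :=
  insert (A.b A.u) (((range l).biUnion (fun i => Lf A c (y i))).image A.b)

/-- A state: labelling `c` and centres `y 0 = u, y 1, ..., y (l-1)`. -/
structure St (A : Dat V) (c : V → ℕ) (y : ℕ → V) (l : ℕ) : Prop where
  base : Base A c
  zero : y 0 = A.u
  inS : ∀ i < l, A.b (y i) ∈ Sb A c y i
  av : ∀ i < l, Av A c (y i)
  und : ∀ i < l, ∀ z ∈ A.N (y i), z ∉ Kset A c y i
  lf : ∀ i < l, (Lf A c (y i)).Nonempty

/-- The value of a state (base `card V + 2` number with digits `card V + 1 - #Lf (y i)`):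
larger value = lexicographically smaller sequence of star sizes (longer is smaller). -/
noncomputable def val (A : Dat V) (c : V → ℕ) (y : ℕ → V) (l : ℕ) : ℕ :=
  ∑ i ∈ range l, (Fintype.card V + 1 - (Lf A c (y i)).card) *
    (Fintype.card V + 2) ^ (Fintype.card V - i)

/-- A state of maximum value. -/
structure MaxSt (A : Dat V) (c : V → ℕ) (y : ℕ → V) (l : ℕ) : Prop where
  st : St A c y l
  top : ∀ (c' : V → ℕ) (y' : ℕ → V) (l' : ℕ), St A c' y' l' → val A c' y' l' ≤ val A c y l

/-- The centres `y i` with `1 ≤ i < l`. -/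
noncomputable def Cen (y : ℕ → V) (l : ℕ) : Finset V := (Ico 1 l).image y

/-- The colours forbidden at `x`: colours `≠ al` of neighbours of `x`, and the colours of the
centres `y i` (`1 ≤ i < l`) in the blocks of marks adjacent to `x`. -/
noncomputable def Fb (A : Dat V) (c : V → ℕ) (y : ℕ → V) (l : ℕ) (x : V) : Finset ℕ :=
  (range A.k).filter (fun a => a ≠ A.al ∧ ((∃ z ∈ A.N x, c z = a) ∨
    ∃ m ∈ A.N x, m ∈ Mk A c ∧ ∃ i, 1 ≤ i ∧ i < l ∧ A.b (y i) = A.b m ∧ c (y i) = a))

/-- The vertices of the block `B` which are neither marks nor centres `y i`, `1 ≤ i < l`. -/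
noncomputable def Rb (A : Dat V) (c : V → ℕ) (y : ℕ → V) (l : ℕ) (B : ℕ) : Finset V :=
  univ.filter (fun v => A.b v = B ∧ v ∉ Mk A c ∧ v ∉ Cen y l)

/-- Number of centres `y i`, `1 ≤ i < l`, in the block `B`. -/
noncomputable def kap (A : Dat V) (y : ℕ → V) (l : ℕ) (B : ℕ) : ℕ :=
  ((Ico 1 l).filter (fun i => A.b (y i) = B)).card

/-- The excess of `x`: `#(Fb x) ≤ D + exc x`. -/
noncomputable def exc (A : Dat V) (c : V → ℕ) (y : ℕ → V) (l : ℕ) (x : V) : ℕ :=
  ∑ m ∈ (A.N x).filter (fun m => m ∈ Mk A c), (kap A y l (A.b m) - 1)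

/-- The vertices of `Rb B` with large excess. -/
noncomputable def Xb (A : Dat V) (c : V → ℕ) (y : ℕ → V) (l t0 : ℕ) (B : ℕ) : Finset V :=
  (Rb A c y l B).filter (fun x => t0 < exc A c y l x)

/-- The vertices of `Rb B` with small excess. -/
noncomputable def Rp (A : Dat V) (c : V → ℕ) (y : ℕ → V) (l t0 : ℕ) (B : ℕ) : Finset V :=
  (Rb A c y l B).filter (fun x => exc A c y l x ≤ t0)

/-- The good blocks. -/
noncomputable def Gd (A : Dat V) (c : V → ℕ) (y : ℕ → V) (l t0 t1 : ℕ) : Finset ℕ :=
  (Sb A c y l).filter (fun B => 1 + kap A y l B + (Xb A c y l t0 B).card ≤ t1)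

/-- The neighbours of `x` in `Kset`. -/
noncomputable def Kn (A : Dat V) (c : V → ℕ) (y : ℕ → V) (l : ℕ) (x : V) : Finset V :=
  (A.N x).filter (fun z => z ∈ Kset A c y l)

/-- The vertices of the block `B` without neighbour in `Kset`. -/
noncomputable def Und (A : Dat V) (c : V → ℕ) (y : ℕ → V) (l : ℕ) (B : ℕ) : Finset V :=
  univ.filter (fun v => A.b v = B ∧ ∀ z ∈ A.N v, z ∉ Kset A c y l)

/-- `x` with the label `a` would be tight: it has neighbours in `Kset`, all of them are marks, and
for every such mark `m` the label `a` occurs at an undominated vertex of the block of `m`. -/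
def TightAt (A : Dat V) (c : V → ℕ) (y : ℕ → V) (l : ℕ) (x : V) (a : ℕ) : Prop :=
  (Kn A c y l x).Nonempty ∧
    ∀ m ∈ Kn A c y l x, m ∈ Mk A c ∧ ∃ v ∈ Und A c y l (A.b m), c v = a

/-- The tight vertices. -/
noncomputable def Tg (A : Dat V) (c : V → ℕ) (y : ℕ → V) (l : ℕ) : Finset V :=
  univ.filter (fun x => TightAt A c y l x (c x))

/-- A state of maximum value such that no other labelling which gives a state of maximum value with
the same centres has fewer tight vertices. -/
structure MinSt (A : Dat V) (c : V → ℕ) (y : ℕ → V) (l : ℕ) : Prop where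
  mx : MaxSt A c y l
  low : ∀ c' : V → ℕ, MaxSt A c' y l → (Tg A c y l).card ≤ (Tg A c' y l).card

/-- The recolouring digraph: `x` may receive the label of `x'`. -/
def Arc (A : Dat V) (c : V → ℕ) (y : ℕ → V) (l : ℕ) (x x' : V) : Prop := c x' ∉ Fb A c y l x

/-- The free digraph: `x` may receive the label of `x'` and does not become tight. -/
def Free (A : Dat V) (c : V → ℕ) (y : ℕ → V) (l : ℕ) (x x' : V) : Prop :=
  c x' ∉ Fb A c y l x ∧ ¬ TightAt A c y l x (c x')

/-- `C` is a terminal strong component of the digraph `r` on `X`. -/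
structure Term (r : V → V → Prop) (X C : Finset V) : Prop where
  sub : C ⊆ X
  ne : C.Nonempty
  closed : ∀ x ∈ C, ∀ x' ∈ X, r x x' → x' ∈ C
  conn : ∀ x ∈ C, ∀ x' ∈ C, Relation.ReflTransGen (fun p q => q ∈ C ∧ r p q) x x'

/-- All data of the proof: a minimal state, for every good block `B` a terminal strong component
`C B` of the recolouring digraph on `Rp B` and a terminal strong component `L B` of the free
digraph on `C B`. -/
structure Frame (A : Dat V) (c : V → ℕ) (y : ℕ → V) (l t0 t1 : ℕ) (C L : ℕ → Finset V) :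
    Prop where
  st : MinSt A c y l
  big : 2 * A.D + t0 + t1 < A.k
  comp : ∀ B ∈ Gd A c y l t0 t1, Term (Arc A c y l) (Rp A c y l t0 B) (C B)
  free : ∀ B ∈ Gd A c y l t0 t1, Term (Free A c y l) (C B) (L B)
  out : ∀ B, B ∉ Gd A c y l t0 t1 → C B = ∅ ∧ L B = ∅

/-- The marks in `Kset`. -/
noncomputable def KM (A : Dat V) (c : V → ℕ) (y : ℕ → V) (l : ℕ) : Finset V :=
  (Kset A c y l).filter (fun m => m ∈ Mk A c)

/-- The used neighbours of the mark `m`: their label occurs at an undominated vertex of the block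
of `m`. -/
noncomputable def Us (A : Dat V) (c : V → ℕ) (y : ℕ → V) (l : ℕ) (m : V) : Finset V :=
  (A.N m).filter (fun z => ∃ v ∈ Und A c y l (A.b m), c v = c z)

/-- `z` is critical: for some mark `m` in `Kset` adjacent to `z` the label of `z` occurs at an
undominated vertex of the block of `m` and at no other neighbour of `m`. -/
def Crit (A : Dat V) (c : V → ℕ) (y : ℕ → V) (l : ℕ) (z : V) : Prop :=
  ∃ m ∈ Kn A c y l z, m ∈ Mk A c ∧ (∃ v ∈ Und A c y l (A.b m), c v = c z) ∧
    ∀ z' ∈ A.N m, c z' = c z → z' = z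

/-- The tight vertices of `X`. -/
noncomputable def Tn (A : Dat V) (c : V → ℕ) (y : ℕ → V) (l : ℕ) (X : Finset V) : Finset V :=
  X.filter (fun z => TightAt A c y l z (c z))

/-- The critical tight vertices of `X`. -/
noncomputable def Tc (A : Dat V) (c : V → ℕ) (y : ℕ → V) (l : ℕ) (X : Finset V) : Finset V :=
  X.filter (fun z => TightAt A c y l z (c z) ∧ Crit A c y l z)

/-- The non-critical tight vertices of `X`. -/
noncomputable def Tv (A : Dat V) (c : V → ℕ) (y : ℕ → V) (l : ℕ) (X : Finset V) : Finset V :=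
  X.filter (fun z => TightAt A c y l z (c z) ∧ ¬ Crit A c y l z)

/-- Second type: all neighbours in `Kset` of the vertices of `X` are marks. -/
def Ty2 (A : Dat V) (c : V → ℕ) (y : ℕ → V) (l : ℕ) (X : Finset V) : Prop :=
  ∀ x ∈ X, ∀ m ∈ Kn A c y l x, m ∈ Mk A c

/-- The good blocks of the second type. -/
noncomputable def G2 (A : Dat V) (c : V → ℕ) (y : ℕ → V) (l t0 t1 : ℕ) (L : ℕ → Finset V) :
    Finset ℕ :=
  (Gd A c y l t0 t1).filter (fun B => Ty2 A c y l (L B))

end SX
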