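import Pool.Agent.Helper5.SX.St
import Pool.Agent.Helper95.SC.Main1
import Pool.Agent.Helper95.SC.K33

/-! # Project SX: from systems to strong colourability -/

set_option autoImplicit false

namespace SX

open Finset
open scoped Classical

/-- Version for a graph whose vertices are identified with a product. -/
theorem sys_of_mn {c0 C0 : ℝ}
    (h : ∀ (V : Type) [Fintype V] (A : Sys V), c0 * A.D + C0 ≤ A.k →
      ∃ c : V → ℕ, Lab A c ∧ ∀ v, c v < A.k)
    (W : Type) [Fintype W] (G : SimpleGraph W) (Δ k : ℕ)
    (hΔ : ∀ w, (G.neighborSet w).ncard ≤ Δ) (hk : c0 * Δ + C0 ≤ k) : SC.Sys G k := by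
  intro κ _ _ e
  let bl : W → ℕ := fun w => (Fintype.equivFin κ (e w).1 : ℕ)
  have hbl : ∀ v w, bl v = bl w ↔ (e v).1 = (e w).1 := by
    intro v w
    constructor
    · intro hvw
      exact (Fintype.equivFin κ).injective (Fin.ext hvw)
    · intro hvw
      simp only [bl, hvw]
  let A : Sys W :=
    { b := bl
      N := fun w => univ.filter (fun x => G.Adj w x ∧ bl x ≠ bl w)
      k := k
      D := Δ
      symm := by
        intro v w hw
        simp only [mem_filter, mem_univ, true_and] at hw ⊢
        exact ⟨hw.1.symm, hw.2.symm⟩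
      out := by
        intro v w hw
        simp only [mem_filter, mem_univ, true_and] at hw
        exact hw.2
      deg := by
        intro v
        refine le_trans ?_ (hΔ v)
        rw [← Set.ncard_coe_finset]
        apply Set.ncard_le_ncard _ (Set.toFinite _)
        intro x hx
        simp only [coe_filter, mem_univ, true_and, Set.mem_ofPred_eq] at hx
        exact hx.1
      blk := by
        intro v
        have : (univ.filter (fun w : W => bl w = bl v)) =
            (univ : Finset (Fin k)).image (fun j => e.symm ((e v).1, j)) := by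
          ext w
          simp only [mem_filter, mem_univ, true_and, mem_image, hbl]
          constructor
          · intro hw
            exact ⟨(e w).2, by rw [← hw]; simp⟩
          · rintro ⟨j, rfl⟩
            simp
        rw [this, Finset.card_image_of_injective, card_univ, Fintype.card_fin]
        intro a b' hab
        have := e.symm.injective hab
        simpa using this }
  obtain ⟨c, hc, hlt⟩ := h W A hk
  refine ⟨fun w => ⟨c w, hlt w⟩, ?_, ?_⟩
  · intro v w hvw hcc
    have hcc' : c v = c w := by simpa using hcc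
    by_cases hb : bl w = bl v
    · exact hvw.ne (hc.inj v w hb.symm hcc')
    · have hw : w ∈ A.N v := by
        simp only [A, mem_filter, mem_univ, true_and]
        exact ⟨hvw, hb⟩
      exact absurd (hc.prop v w hw hcc'.symm) (not_le.2 (hlt v))
  · intro v w hb hcc
    have hcc' : c v = c w := by simpa using hcc
    exact hc.inj v w ((hbl v w).2 hb) hcc'

/-- The final statement. -/
def StGL : Prop := ∀ c0 : ℝ, (3 + Real.sqrt 5) / 2 < c0 → ∃ C : ℝ, 0 < C ∧
  ∀ (V : Type) [Fintype V] (G : SimpleGraph V) (Δ : ℕ), (∀ v, (G.neighborSet v).ncard ≤ Δ) →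
    (∀ k : ℕ, c0 * Δ + C ≤ k → SC.StronglyColourable G k) ∧
    (SC.schi G : ℝ) ≤ c0 * Δ + C

theorem hGL (hMN : StMN) : StGL := by
  intro c0 hc0
  obtain ⟨C0, hC0, h⟩ := hMN c0 hc0
  have hc0p : 0 < c0 := by
    have := Real.sqrt_nonneg 5
    linarith
  refine ⟨C0 + 1, by linarith, ?_⟩
  intro V _ G Δ hΔ
  have h1 : ∀ k : ℕ, c0 * Δ + C0 ≤ k → SC.StronglyColourable G k := by
    intro k hk
    unfold SC.StronglyColourable
    apply SC.strongOn_of_sys
    apply sys_of_mn h _ _ Δ k _ hk
    intro w
    cases w with
    | inl v =>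
      refine le_trans (le_of_eq ?_) (hΔ v)
      have : (SC.pad G (k * ((Fintype.card V + k - 1) / k) - Fintype.card V)).neighborSet
          (Sum.inl v) = Sum.inl '' (G.neighborSet v) := by
        ext w
        simp only [SimpleGraph.mem_neighborSet, Set.mem_image]
        constructor
        · intro hw
          obtain ⟨a, b', h1, h2, h3⟩ := SC.pad_adj G _ _ _ hw
          have : v = a := Sum.inl_injective h1
          subst this
          exact ⟨b', h3, h2.symm⟩
        · rintro ⟨b', hb', rfl⟩
          exact (SC.pad_adj_inl G _ v b').2 hb'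
      rw [this, Set.ncard_image_of_injective _ Sum.inl_injective]
    | inr a =>
      have : (SC.pad G (k * ((Fintype.card V + k - 1) / k) - Fintype.card V)).neighborSet
          (Sum.inr a) = ∅ := by
        ext w
        simp only [SimpleGraph.mem_neighborSet, Set.mem_empty_iff_false, iff_false]
        intro hw
        obtain ⟨a', b', h1, h2, h3⟩ := SC.pad_adj G _ _ _ hw
        cases h1
      rw [this]
      simp
  refine ⟨fun k hk => h1 k (by linarith), ?_⟩
  have hM0 : 0 < c0 * Δ + C0 := by positivity
  have h2 : SC.schi G ≤ ⌈c0 * Δ + C0⌉₊ := by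
    apply SC.schi_le G _ (Nat.ceil_pos.2 hM0)
    exact h1 _ (Nat.le_ceil _)
  calc (SC.schi G : ℝ) ≤ (⌈c0 * Δ + C0⌉₊ : ℝ) := by exact_mod_cast h2
    _ ≤ c0 * Δ + C0 + 1 := (Nat.ceil_lt_add_one hM0.le).le
    _ = c0 * Δ + (C0 + 1) := by ring

end SX
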