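import Pool.Agent.Helper5.SX.Defs

/-!
# Project SX (MP_7b75b3_co): statements of the modules, with complete proofs in the docstrings

THEOREM.  For every `c0 > (3 + sqrt 5) / 2` there is `C` such that every finite graph `G` of maximum
degree at most `Δ` is strongly `k`-colourable for all `k ≥ c0 * Δ + C`.

Every module `XXX` proves `StXXX` from the statements named in its docstring (uses).
Notation of the docstrings: `K = Kset A c y l`, `K_i = Kset A c y i`, `S_i = Sb A c y i`, `N = A.N`,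
`b = A.b`, `D = A.D`, `k = A.k`, `al = A.al`, `u = A.u`, mark = element of `Mk A c`, label = value of
`c`, real label = label `< k`, blank = label `≥ k`, `s = (Sb A c y l).card`.
-/

set_option autoImplicit false

namespace SX

open Finset
open scoped Classical

/-! ### Generic modules -/

/-- **TRM** (terminal strong component exists).
Proof. Among the nonempty `C ⊆ X` which are closed (`x ∈ C`, `x' ∈ X`, `r x x'` imply `x' ∈ C`; for
instance `X` itself) take one of minimum cardinality. For `x ∈ C` the set `Z` of all `z ∈ C` with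
`ReflTransGen (fun p q => q ∈ C ∧ r p q) x z` contains `x`, is contained in `C` and is closed (if
`z ∈ Z`, `x' ∈ X`, `r z x'` then `x' ∈ C` because `C` is closed, and the chain extends). So `Z = C`
by minimality. -/
def StTRM : Prop := ∀ (V : Type) [Fintype V] (r : V → V → Prop) (X : Finset V), X.Nonempty →
  ∃ C : Finset V, Term r X C

/-- **CYC** (a directed cycle through the arc `x → x'` as a permutation).
Proof. From the chain `x' → ... → x` choose one without repetitions: `p 0 = x'`, ..., `p n = x`,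
all in `C` (shortest chain; `n ≥ 1` since `x ≠ x'`). Let `π` be the cyclic permutation
`p 0 ↦ p 1 ↦ ... ↦ p n ↦ p 0` (for instance `List.formPerm`). Then `π x = x'`, and every `v` moved by
`π` is some `p i`, so `v ∈ C`, `π v ∈ C` and `r v (π v)` (for `v = p n = x` this is `r x x'`). -/
def StCYC : Prop := ∀ (V : Type) [Fintype V] (r : V → V → Prop) (C : Finset V) (x x' : V),
  x ∈ C → x' ∈ C → x ≠ x' → r x x' →
  Relation.ReflTransGen (fun p q => q ∈ C ∧ r p q) x' x →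
  ∃ π : Equiv.Perm V, π x = x' ∧ ∀ v, π v ≠ v → v ∈ C ∧ π v ∈ C ∧ r v (π v)

/-! ### States -/

/-- **BFA** (basic facts on states, first part).
Proof. (1) two marks in the same block: both of colour `al`: equal because `c` is injective on
blocks; one of them `u`: `miss`. (2) `z ∈ Lf (y i) ∩ Lf (y j)`, `i < j`: `z ∈ K_j` and
`z ∈ N (y j)`, against `und`. (3) `y i = y j` with `i < j`: `Lf (y i) = Lf (y j)` is nonempty,
against (2). (4) `i ≥ 1`: `y i ≠ u = y 0` by (3), so `Av` gives `c (y i) ≠ al`. (5) The nonempty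
sets `Lf (y i)` are pairwise disjoint (or: `y` is injective on `range l` by (3)). (6) Trivial.
(7) `z ∈ Lf (y j)`, `b z ∈ S_j`: `b z = b u` is impossible by `miss` (`c z = al`); `b z = b z'` with
`z' ∈ Lf (y i)`, `i < j`: then `z = z'` by (1), against (2). -/
def StBFA : Prop := ∀ (V : Type) [Fintype V] (A : Dat V) (c : V → ℕ) (y : ℕ → V) (l : ℕ),
  St A c y l →
  (∀ m ∈ Mk A c, ∀ m' ∈ Mk A c, A.b m = A.b m' → m = m') ∧
  (∀ i j, i < j → j < l → Disjoint (Lf A c (y i)) (Lf A c (y j))) ∧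
  (∀ i < l, ∀ j < l, y i = y j → i = j) ∧
  (∀ i < l, 1 ≤ i → y i ∉ Mk A c) ∧
  l ≤ Fintype.card V ∧
  (∀ i j, i ≤ j → Kset A c y i ⊆ Kset A c y j ∧ Sb A c y i ⊆ Sb A c y j) ∧
  (∀ j < l, ∀ z ∈ Lf A c (y j), A.b z ∉ Sb A c y j)

/-- **BFB** (basic facts on states, second part). Uses BFA.
Proof. `u = y 0 ∈ K`. `b (y i) ∈ S_i ⊆ S`, and the blocks of leaves are in `S` by definition. For
`B ∈ S`: `B = b u` (mark `u ∈ K`) or `B = b z` with a leaf `z` (`c z = al`, `z ∈ K`). So `b` is a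
bijection from `KM` onto `S` (injective by BFA 1). An element of `K` which is no mark is some `y i`,
`i ≠ 0` since `u` is a mark. `y` is injective on `[1, l)` and its values there are no marks.
`#S = 1 + ∑ i < l, #Lf (y i) ≥ 1 + l` (the leaves of different stars are different marks, their
blocks are different and different from `b u`). `#K = #KM + #Cen = s + (l - 1) ≤ 2 s - 2`. Every
`y i` is adjacent to its leaves (nonempty), every leaf to its centre. -/
def StBFB : Prop := ∀ (V : Type) [Fintype V] (A : Dat V) (c : V → ℕ) (y : ℕ → V) (l : ℕ),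
  St A c y l → 0 < l →
  A.u ∈ Kset A c y l ∧
  (∀ z ∈ Kset A c y l, A.b z ∈ Sb A c y l) ∧
  (∀ B ∈ Sb A c y l, ∃ m ∈ KM A c y l, A.b m = B) ∧
  (KM A c y l).card = (Sb A c y l).card ∧
  (∀ z ∈ Kset A c y l, z ∉ Mk A c → z ∈ Cen y l) ∧
  (∀ z ∈ Cen y l, z ∈ Kset A c y l ∧ z ∉ Mk A c) ∧
  (Cen y l).card = l - 1 ∧
  l + 1 ≤ (Sb A c y l).card ∧
  (Kset A c y l).card + 2 ≤ 2 * (Sb A c y l).card ∧
  (∀ z ∈ Kset A c y l, ∃ w ∈ A.N z, w ∈ Kset A c y l)

/-- **VAL** (lexicographic comparison, and extension by one star).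
Proof. Put `n = card V`, `q = n + 2`, digits `d i = n + 1 - #Lf (y i) ∈ [1, n + 1]`. (1) The digits
with index `< j` agree, `d' j ≥ d j + 1` (as `#Lf ≤ n`), and
`∑ j < i < l, d i * q ^ (n - i) ≤ (q - 1) * ∑ j < i < l, q ^ (n - i) < q ^ (n - j)` since `l ≤ n`
(geometric sum; induct on `l`: `∑ j < i < l, d i q^(n-i) + q^(n - l + 1) ≤ q^(n - j)`).
(2) One more positive summand. -/
def StVAL : Prop := ∀ (V : Type) [Fintype V] (A : Dat V),
  (∀ (c c' : V → ℕ) (y : ℕ → V) (l j : ℕ), l ≤ Fintype.card V → j < l →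
    (∀ i < j, (Lf A c' (y i)).card = (Lf A c (y i)).card) →
    (Lf A c' (y j)).card < (Lf A c (y j)).card → val A c y l < val A c' y (j + 1)) ∧
  (∀ (c : V → ℕ) (y y' : ℕ → V) (l : ℕ), (∀ i < l, y' i = y i) →
    val A c y l < val A c y' (l + 1))

/-- **SWU** (swap in the block of `u`).
Proof. `v = u`: colour `u` with `al`: `al` is missing in the block, and `u` has no neighbour of
colour `al`; the number of coloured vertices grows. `v ≠ u`: give `al` to `v` and the label `c v` to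
`u` (the old blank label of `u` is dropped). Injective on blocks: `al` was missing in the block.
Conflicts: `v` has no neighbour of label `al` (`Lf v = ∅`; `u` is in the same block, so it is no
neighbour); if `c v` is real then no neighbour of `u` has label `c v` by `Av` (`u` is a mark of the
block of `v`; `c v ≠ al`). Among `u, v` the number of coloured vertices was `[c v < k]` (`u` is
blank), now it is `1 + [c v < k]`. This contradicts `Base.max`. -/
def StSWU : Prop := ∀ (V : Type) [Fintype V] (A : Dat V) (c : V → ℕ) (v : V), Base A c →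
  A.b v = A.b A.u → Av A c v → Lf A c v = ∅ → False

/-- **SWO** (swap in another block). Uses BFA.
Proof. `b v ∈ S_l`, `b v ≠ b u`: there are `j < l` and `m ∈ Lf (y j)` with `b m = b v`; `c m = al`,
`m` is a mark. `v ≠ u`, so `c v ≠ al` and `v ≠ m`. Let `c' = c ∘ swap v m`.
`c'` is a labelling: the label `al` of `v` has no conflict since `Lf A c v = ∅` (the neighbours of
`v` are not in its block, so they are not `m` or `v`); the label `c v` of `m`: if real, no neighbour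
of `m` has it by `Av`. `cnt c' = cnt c`, `c' u = c u`, the block of `u` is unchanged: `Base A c'`.
`v ∉ K_l` and `v ∉ N (y i)` for `i < l` (as `y i ∈ K_l`, `v` has no neighbour in `K_l`; `v` itself is
not in `K_l`: `v ≠ y i` since `Lf (y i)` is nonempty and contained in `K_l`, `v` is not a leaf as
`c v ≠ al`). Hence `Lf A c' (y i) = (Lf A c (y i)) \ {m}` for all `i ≤ j` (a neighbour `z` of `y i`
has `c' z = al` iff `z = v` or (`c z = al` and `z ≠ m`)). By BFA (2) `m ∉ Lf A c (y i)` for `i < j`.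
So the leaves are unchanged for `i < j` and one leaf is lost for `i = j`; `K_i`, `S_i` are unchanged
for `i ≤ j`.
Availability of `y i` for `i ≤ j` under `c'`: `y 0 = u`. Let `1 ≤ i ≤ j`: `y i ≠ u` by BFA (3), so
`c (y i) ≠ al`; `y i ≠ v` (see above), `y i ≠ m` (`c m = al`), so `c' (y i) = c (y i)`. The block of
`y i` is in `S_i ⊆ S_j` and `b m ∉ S_j` by BFA (7), so the labels of the block of `y i` (and its
mark `m'`) are unchanged (`c' = c` outside the block of `m`). Let `z ∈ N m'` with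
`c' z = c (y i)`. If `z ≠ v, m`: `c z = c (y i)`, use `Av A c (y i)`. If `z = v`: `c' v = al ≠
c (y i)`. If `z = m`: `m ∈ N m'`. If `c m' = al` then `m, m'` are adjacent and have the same colour
`al < k`, impossible. If `m' = u`: `m ∈ N u = N (y 0)`, `c m = al`, so `m ∈ Lf (y 0)`, hence `j = 0`
by BFA (2), but `1 ≤ i ≤ j`.
So `St A c' y j` and the three statements on `y j` hold. -/
def StSWO : Prop := ∀ (V : Type) [Fintype V] (A : Dat V) (c : V → ℕ) (y : ℕ → V) (l : ℕ) (v : V),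
  St A c y l → A.b v ≠ A.b A.u → A.b v ∈ Sb A c y l → Av A c v → Lf A c v = ∅ →
  (∀ z ∈ A.N v, z ∉ Kset A c y l) →
  ∃ (c' : V → ℕ) (j : ℕ), j < l ∧ St A c' y j ∧
    (∀ i < j, Lf A c' (y i) = Lf A c (y i)) ∧
    (Lf A c' (y j)).card < (Lf A c (y j)).card ∧
    Av A c' (y j) ∧ A.b (y j) ∈ Sb A c' y j ∧ ∀ z ∈ A.N (y j), z ∉ Kset A c' y j

/-- **REC**. Uses SWU, SWO.
Proof. Strong induction on `l` (for all `c`, `v`). If `b v = b u`: SWU, contradiction. Otherwise
take `c'`, `j` from SWO. If `Lf A c' (y j)` is nonempty then `St A c' y (j + 1)` and we are done.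
If it is empty, apply the induction hypothesis to `j < l`, `c'` and `v := y j`: we get `c''`,
`j' < j`, `St A c'' y (j' + 1)`, and for `i < j'` the cardinality of `Lf A c'' (y i)` is that of
`Lf A c' (y i) = Lf A c (y i)`, and `#Lf A c'' (y j') < #Lf A c' (y j') = #Lf A c (y j')`. -/
def StREC : Prop := ∀ (V : Type) [Fintype V] (A : Dat V) (y : ℕ → V) (l : ℕ) (c : V → ℕ) (v : V),
  St A c y l → A.b v ∈ Sb A c y l → Av A c v → Lf A c v = ∅ →
  (∀ z ∈ A.N v, z ∉ Kset A c y l) →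
  ∃ (c' : V → ℕ) (j : ℕ), j < l ∧ St A c' y (j + 1) ∧
    (∀ i < j, (Lf A c' (y i)).card = (Lf A c (y i)).card) ∧
    (Lf A c' (y j)).card < (Lf A c (y j)).card

/-- **CZ** (Claim 0: in a state of maximum value every available vertex of the blocks in `S` is
dominated by `K`). Uses BFA, VAL, SWU, REC.
Proof. First `0 < l`: if `l = 0`, then `Lf A c u` is nonempty by SWU (`v = u`), so `St A c y 1`
holds (`y 0 = u`, `S_0 = {b u}`, `K_0 = ∅`), and its value is larger by VAL (2).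
Let `v` be available, `b v ∈ S`, without neighbour in `K`. If `Lf A c v = ∅`: REC and VAL (1)
(`l ≤ card V` by BFA) give a state of larger value. If `Lf A c v` is nonempty: let
`y' = Function.update y l v`; as `l > 0`, `y' 0 = u`; `Kset`, `Sb` for `i ≤ l` only depend on
`y i`, `i < l`; so `St A c y' (l + 1)` holds, with larger value by VAL (2). -/
def StCZ : Prop := ∀ (V : Type) [Fintype V] (A : Dat V) (c : V → ℕ) (y : ℕ → V) (l : ℕ),
  MaxSt A c y l → 0 < l ∧ ∀ v, A.b v ∈ Sb A c y l → Av A c v →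
    ∃ z ∈ A.N v, z ∈ Kset A c y l

/-- **EXM** (existence of minimal states). Uses BFA.
Proof. There is a labelling (all labels blank: `c v = k + index of v`), and `cnt ≤ card V`, so there
is a labelling `c` with maximum `cnt`. By assumption some `u` has `k ≤ c u`. The block of `u` has
`k` vertices with different labels and `c u ≥ k`, so at most `k - 1` labels `< k` occur in the block
and some `al < k` is missing. So `Base` holds, and `St A c y 0` with `y i = u` for all `i`. For every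
state `l ≤ card V` (BFA) so `val` is bounded (by `n * ((n + 1) * (n + 2) ^ n)`, `n = card V`): there
is a state of maximum value (`MaxSt`). Keep its `y`, `l` and choose `c` with the smallest number of
tight vertices among all `c` with `MaxSt A c y l`. -/
def StEXM : Prop := ∀ (V : Type) [Fintype V] (A : Sys V),
  (∀ c : V → ℕ, Lab A c → ∃ v, A.k ≤ c v) →
  ∃ (A' : Dat V) (c : V → ℕ) (y : ℕ → V) (l : ℕ), A'.toSys = A ∧ MinSt A' c y l

/-- **ROT** (rotations). Uses BFA. `π` only moves vertices of `Rb B`, and `v` may receive the label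
of `π v`.
Proof. Put `c' = c ∘ π`. Moved vertices and their images are no marks, so `c' v = al ↔ c v = al`
(if `π v = v` clear; if `π v ≠ v` both sides are false). So `Mk`, `Lf`, `Kset`, `Sb` and `val` are
the same for `c'` and `c`. `u` is not moved (`u` is a mark); `y i` for `1 ≤ i < l` is not moved (it
is in `Cen`). `π` preserves blocks. `c'` is a labelling: injective on blocks. Conflict: let
`w ∈ N v`, `c' w = c' v = a`. `v, w` are in different blocks, so at most one is moved. None: `Lab`.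
`v` moved: `a = c (π v)`, `c w = a`; `a ≠ al`; if `a < k` then `a ∈ Fb v` (first alternative),
contradiction, so `k ≤ a`. `w` moved: symmetric (`v ∈ N w`). `cnt c' = cnt c` (bijection). `c' u =
c u`; `al` is missing in the block of `u`. So `Base A c'`.
`St`: only `av` needs a proof. `i = 0`: `y 0 = u`. `1 ≤ i < l`: `c' (y i) = c (y i) ≠ al`
(`y i` is no mark by BFA). Let `m` be a mark in the block of `y i`, `z ∈ N m`, `c' z = c (y i) = a`.
If `π z = z` use `Av A c (y i)`. If `z` is moved: `m ∈ N z`, `c (π z) = a`; if `a < k` then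
`a ∈ Fb z` by the second alternative (`m`, `i`), contradiction. So `k ≤ a`.
`top`: the value is the same. -/
def StROT : Prop := ∀ (V : Type) [Fintype V] (A : Dat V) (c : V → ℕ) (y : ℕ → V) (l : ℕ)
  (π : Equiv.Perm V) (B : ℕ), MaxSt A c y l →
  (∀ v, π v ≠ v → v ∈ Rb A c y l B ∧ π v ∈ Rb A c y l B ∧ c (π v) ∉ Fb A c y l v) →
  MaxSt A (fun v => c (π v)) y l ∧ Mk A (fun v => c (π v)) = Mk A c ∧
  (∀ i, Kset A (fun v => c (π v)) y i = Kset A c y i) ∧
  (∀ i, Sb A (fun v => c (π v)) y i = Sb A c y i)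

/-- **FCD** (number of forbidden colours).
Proof. `Fb x` is contained in the union of `c '' (N x \ Mk)` (if `c z = a`, `z ∈ N x`, `a < k`,
`a ≠ al`, then `z` is no mark: `c z ≠ al` and `c u ≥ k`) and, over the marks `m ∈ N x`, of the sets
`{c (y i) : 1 ≤ i < l, b (y i) = b m}`, which have at most `kap (b m) ≤ 1 + (kap (b m) - 1)`
elements. So `#Fb x ≤ #(N x \ Mk) + ∑ m, (1 + (kap (b m) - 1)) = #N x + exc x`. -/
def StFCD : Prop := ∀ (V : Type) [Fintype V] (A : Dat V) (c : V → ℕ) (y : ℕ → V) (l : ℕ) (x : V),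
  St A c y l → (Fb A c y l x).card ≤ A.D + exc A c y l x

/-- **EXS** (sum of the excesses). Uses BFA.
Proof. `∑ x, ∑ m ∈ N x ∩ Mk, (kap (b m) - 1) = ∑ m ∈ Mk, #N m * (kap (b m) - 1)
≤ D * ∑ m ∈ Mk, kap (b m)` (symmetry of `N`), and `∑ m ∈ Mk, kap (b m)` counts the pairs `(m, i)`
with `1 ≤ i < l` and `b (y i) = b m`, at most one `m` for every `i` by BFA (1): it is `≤ l - 1`. -/
def StEXS : Prop := ∀ (V : Type) [Fintype V] (A : Dat V) (c : V → ℕ) (y : ℕ → V) (l : ℕ),
  St A c y l → ∑ x, exc A c y l x ≤ A.D * (l - 1)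

/-- **RPC** (composition of a block). Uses BFA, BFB.
Proof. Let `m ∈ KM` be the mark of the block `B` (BFB). By `blk` the block has `k` vertices. It is
the disjoint union of `{m}` (all marks of the block are equal to `m`, BFA (1)), of the centres
`y i`, `1 ≤ i < l`, in `B` (`kap B` many, `y` injective, no marks) and of `Rb B`, and `Rb B` is the
disjoint union of `Rp B` and `Xb B`. -/
def StRPC : Prop := ∀ (V : Type) [Fintype V] (A : Dat V) (c : V → ℕ) (y : ℕ → V) (l t0 : ℕ),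
  St A c y l → 0 < l → ∀ B ∈ Sb A c y l,
    (Rp A c y l t0 B).card + (1 + kap A y l B + (Xb A c y l t0 B).card) = A.k

/-- **BDB** (number of bad blocks). Uses BFB, EXS.
Proof. For a bad block `t1 ≤ kap B + #Xb B`. `∑ B ∈ S, kap B ≤ l - 1` (every `i` in `[1, l)` is
counted in at most one block) and `∑ B ∈ S, #Xb B = #(⋃ Xb B)` (disjoint) with
`(t0 + 1) * #(⋃ Xb B) ≤ ∑ x, exc x ≤ D * (l - 1)`. So
`#bad * t1 * (t0 + 1) ≤ (l - 1) * (t0 + 1) + D * (l - 1)`, and `l - 1 ≤ s`. -/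
def StBDB : Prop := ∀ (V : Type) [Fintype V] (A : Dat V) (c : V → ℕ) (y : ℕ → V) (l t0 t1 : ℕ),
  St A c y l → 0 < l →
  ((Sb A c y l) \ (Gd A c y l t0 t1)).card * t1 * (t0 + 1) ≤ (t0 + 1 + A.D) * (Sb A c y l).card

/-- **FRM** (existence of a frame). Uses TRM, CZ, RPC.
Proof. For a good block `B`: `#Rp B ≥ k - t1 > 0` by RPC (`0 < l` by CZ), so TRM gives `C B`
(relation `Arc`, set `Rp B`) and `L B` (relation `Free`, set `C B`). For other `B` take `∅`. -/
def StFRM : Prop := ∀ (V : Type) [Fintype V] (A : Dat V) (c : V → ℕ) (y : ℕ → V) (l t0 t1 : ℕ),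
  MinSt A c y l → 2 * A.D + t0 + t1 < A.k → ∃ C L : ℕ → Finset V, Frame A c y l t0 t1 C L

/-! ### Claims about frames -/

/-- **UNF** (undominated vertices). Uses BFA, BFB, CZ.
Proof. Let `m ∈ KM`, `v ∈ Und (b m)`; `b m ∈ S` (BFB). Elements of `K` have neighbours in `K` (BFB),
so `v ∉ K`. `v` is no mark: two marks in one block are equal (BFA (1)), and `m ∈ K`. `v ∉ Cen`
since `Cen ⊆ K`. By CZ `v` is not available; `v ≠ u`, `c v ≠ al` (no mark), so there are a mark `m'`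
in the block of `v` and `z ∈ N m'` with `c z = c v < k`; `m' = m` by BFA (1).
Last statement: by the first part, `v ↦` some `z ∈ N m` with `c z = c v` maps `Und (b m)` injectively
(`c` is injective on the block) into `Us m`, and `Us m ⊆ N m`. -/
def StUNF : Prop := ∀ (V : Type) [Fintype V] (A : Dat V) (c : V → ℕ) (y : ℕ → V) (l : ℕ),
  MaxSt A c y l → ∀ m ∈ KM A c y l,
    (∀ v ∈ Und A c y l (A.b m), v ∉ Mk A c ∧ v ∉ Cen y l ∧ c v < A.k ∧ c v ≠ A.al ∧
      ∃ z ∈ A.N m, c z = c v) ∧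
    (Und A c y l (A.b m)).card ≤ (Us A c y l m).card ∧ (Us A c y l m).card ≤ A.D

/-- **CLA** (Claim 1: the vertices of `C B` are dominated). Uses CYC, BFA, CZ, ROT, FCD, RPC.
Proof. Let `v ∈ C B ⊆ Rp B`, so `b v = B ∈ S`, `v` is no mark, `exc v ≤ t0`. Suppose that `v` has no
neighbour in `K`. By CZ `v` is not available: there are a mark `m` in the block of `v` and
`z ∈ N m` with `c z = c v`. By FCD and RPC (`B` is good)
`#Fb v + #N m ≤ (D + t0) + D < k - t1 ≤ #Rp B`, and `c` is injective on `Rp B`, so there is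
`x' ∈ Rp B` with `c x' ∉ Fb v` and `c x' ∉ c '' N m`. `x' ∈ C B` by `closed`; `x' ≠ v` since
`c v = c z`. By CYC (relation `Arc`, chain from `x'` to `v` by `conn`) there is `π` with `π v = x'`
moving only vertices of `C B ⊆ Rb B` with `c (π w) ∉ Fb w`. Let `c' = c ∘ π`; by ROT `MaxSt A c' y l`
with the same marks, `K`, `S`. `v` is available for `c'`: `c' v = c x' ≠ al` (`x'` is no mark); the
mark of the block is `m` (BFA (1)); `z' ∈ N m` is not in the block `B`, so it is not moved and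
`c' z' = c z' ≠ c x' = c' v`. CZ for `c'` gives a neighbour of `v` in `K`. Contradiction. -/
def StCLA : Prop := ∀ (V : Type) [Fintype V] (A : Dat V) (c : V → ℕ) (y : ℕ → V) (l t0 t1 : ℕ)
  (C L : ℕ → Finset V), Frame A c y l t0 t1 C L →
  ∀ B ∈ Gd A c y l t0 t1, ∀ v ∈ C B, (Kn A c y l v).Nonempty

/-- **CLB** (Claim 2: a critical colour is forbidden outside the neighbourhood of the mark). Uses
CYC, BFA, BFB, CZ, ROT, UNF.
Proof. Let `v ∈ Und (b m)`, `z ∈ N m ∩ C B` the only neighbour of `m` with label `c v`. Suppose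
`x ∈ C B`, `x ∉ N m`, `c z ∉ Fb x`, i.e. `Arc x z`. `x ≠ z`. CYC (relation `Arc`, chain from `z` to
`x` by `conn`): `π x = z`, `π` moves only vertices of `C B ⊆ Rp B ⊆ Rb B`. `c' = c ∘ π`; ROT.
`b m ≠ B` (`z ∈ N m`, `b z = B`), so `v` is not moved: `c' v = c v ≠ al` (UNF).
`v` is available for `c'`: the mark of its block is `m` (BFA (1)). Suppose `z' ∈ N m`,
`c' z' = c v`. If `z'` is not moved, `c z' = c v`, so `z' = z` by uniqueness, but `z` is moved
(`π x = z`, `x ≠ z`, so `π z ≠ z`). If `z'` is moved: `z', π z' ∈ block B` and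
`c (π z') = c v = c z`, so `π z' = z = π x` (`c` is injective on the block), `z' = x ∉ N m`.
Contradiction. So `v` is available, `b v ∈ S`, and by CZ for `c'` it has a neighbour in `K`,
against `v ∈ Und`. -/
def StCLB : Prop := ∀ (V : Type) [Fintype V] (A : Dat V) (c : V → ℕ) (y : ℕ → V) (l t0 t1 : ℕ)
  (C L : ℕ → Finset V), Frame A c y l t0 t1 C L →
  ∀ m ∈ KM A c y l, ∀ v ∈ Und A c y l (A.b m), ∀ z ∈ A.N m, c z = c v →
  (∀ z' ∈ A.N m, c z' = c v → z' = z) →
  ∀ B ∈ Gd A c y l t0 t1, z ∈ C B → ∀ x ∈ C B, x ∉ A.N m → c z ∈ Fb A c y l x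

/-- **CLC** (Claim 3: no vertex of `L B` is tight). Uses CYC, FCD, RPC, CZ, ROT, UNF, CLA.
Proof. Let `z ∈ L B` be tight. Let `P` be the set of `x' ∈ Rp B` with `c x' ∉ Fb z`; `P ⊆ C B` by
`closed` (`z ∈ L B ⊆ C B`), and `#P ≥ #Rp B - #Fb z ≥ (k - t1) - (D + t0) > D` (`c` is injective on
the block; RPC and FCD, `exc z ≤ t0`).
(i) Some `x' ∈ P` with `¬ TightAt z (c x')`: then `Free z x'`, so `x' ∈ L B` by `closed`; `x' ≠ z`
because `TightAt z (c z)`. CYC (relation `Free`, set `L B`, chain from `x'` to `z` by `conn`):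
`π z = x'`, every moved `w` is in `L B` and `Free w (π w)`. ROT: `c' = c ∘ π` gives `MaxSt A c' y l`
with the same `Mk`, `Kset`. `Und` is the same. If `v ∈ Und (b m)`, `v` is not moved, because moved
vertices are in `C B` and have a neighbour in `K` by CLA. So `TightAt A c' y l x a ↔
TightAt A c y l x a` for all `x`, `a`. Hence a moved `w` is not in `Tg c'`, and a vertex which is not
moved is in `Tg c'` iff it is in `Tg c`; `z ∈ Tg c` is moved. So `Tg c' ⊆ Tg c \ {z}`, against the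
minimality `low`.
(ii) All `x' ∈ P` have `TightAt z (c x')`. Take `m ∈ Kn z` (nonempty as `z` is tight); `m` is a
mark, so `m ∈ KM`, and for all `x' ∈ P` there is `v ∈ Und (b m)` with `c v = c x'`. So
`#P ≤ #Und (b m) ≤ D` by UNF, contradiction. -/
def StCLC : Prop := ∀ (V : Type) [Fintype V] (A : Dat V) (c : V → ℕ) (y : ℕ → V) (l t0 t1 : ℕ)
  (C L : ℕ → Finset V), Frame A c y l t0 t1 C L →
  ∀ B ∈ Gd A c y l t0 t1, ∀ z ∈ L B, ¬ TightAt A c y l z (c z)

/-- **TYA** (blocks of the first type). Uses FCD.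
Proof. There are `x ∈ L B` and `m ∈ Kn x` which is no mark. So `TightAt x a` is false for all `a`.
Let `x' ∈ Rp B \ L B`. Then `c x' ∈ Fb x`: otherwise `x' ∈ C B` by `closed` of `C B`
(`x ∈ L B ⊆ C B`), `Free x x'`, so `x' ∈ L B` by `closed` of `L B`. `c` is injective on the block,
so `#(Rp B \ L B) ≤ #Fb x ≤ D + t0` (FCD, `exc x ≤ t0` because `x ∈ Rp B`). -/
def StTYA : Prop := ∀ (V : Type) [Fintype V] (A : Dat V) (c : V → ℕ) (y : ℕ → V) (l t0 t1 : ℕ)
  (C L : ℕ → Finset V), Frame A c y l t0 t1 C L →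
  ∀ B ∈ Gd A c y l t0 t1, ¬ Ty2 A c y l (L B) →
    (Rp A c y l t0 B).card ≤ (L B).card + A.D + t0

/-- **TYB** (blocks of the second type: large part of `L B` outside every `N m`). Uses FCD, UNF, CLA.
Proof. First case: there is `x ∈ L B ∩ N m`; then `m ∈ Kn x`. Let `x' ∈ Rp B \ L B` with
`c x' ∉ Fb x`. Then `x' ∈ C B` (`closed`), and `Free x x'` fails (`x' ∉ L B`), so
`TightAt x (c x')`, in particular (`m ∈ Kn x`) there is `v ∈ Und (b m)` with `c v = c x'`, and by
UNF there is `z ∈ N m` with `c z = c x'`. `z ∉ L B`: otherwise `z`, `x'` are in the same block `B`,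
so `z = x' ∉ L B`. The map `x' ↦ z` is injective (`c z = c x'`, `c` injective on `B`). So
`#(Rp B \ L B) ≤ #Fb x + #(N m \ L B) ≤ (D + t0) + (D - #(L B ∩ N m))`, and
`#Rp B = #L B + #(Rp B \ L B)`, `#L B - #(L B ∩ N m) = #(L B \ N m)`.
Second case: `L B ∩ N m = ∅`. Take `x ∈ L B` and `m' ∈ Kn x` (CLA); `m'` is a mark (second type), so
`m' ∈ KM`, and the first case for `m'` gives `#Rp B ≤ #(L B \ N m') + 2 D + t0 ≤ #L B + 2 D + t0`
and `L B \ N m = L B`. -/
def StTYB : Prop := ∀ (V : Type) [Fintype V] (A : Dat V) (c : V → ℕ) (y : ℕ → V) (l t0 t1 : ℕ)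
  (C L : ℕ → Finset V), Frame A c y l t0 t1 C L →
  ∀ B ∈ Gd A c y l t0 t1, Ty2 A c y l (L B) → ∀ m ∈ KM A c y l,
    (Rp A c y l t0 B).card ≤ (L B \ A.N m).card + 2 * A.D + t0

/-- **AVG** (critical tight vertices of a block of the second type). Uses FCD, CLB, TYB.
Proof. For `z ∈ Tc (C B)` choose `m = m_z ∈ Kn z`, a mark (so `m ∈ KM`, `z ∈ N m` by symmetry), and
`v ∈ Und (b m)` with `c v = c z`, `z` the only neighbour of `m` with this label (`Crit`). By CLB,
`c z ∈ Fb x` for all `x ∈ C B \ N m`, in particular for all `x ∈ L B \ N m`, and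
`#Rp B ≤ #(L B \ N m) + 2 D + t0` by TYB. Let `E` be the number of pairs `(x, z)`, `x ∈ L B`,
`z ∈ Tc (C B)`, `c z ∈ Fb x`. Then `#Tc * #Rp B ≤ E + #Tc * (2 D + t0)`.
For `x ∈ L B`: the labels of the `z ∈ Tc (C B)` with `c z ∈ Fb x` and the labels of
`Rp B \ C B` (they are in `Fb x` by `closed`, as `x ∈ L B ⊆ C B`) are different elements of `Fb x`, so
`#{z ∈ Tc : c z ∈ Fb x} + #(Rp B \ C B) ≤ D + t0`. Sum over `x ∈ L B`:
`E + #L B * #(Rp B \ C B) ≤ #L B * (D + t0)`. -/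
def StAVG : Prop := ∀ (V : Type) [Fintype V] (A : Dat V) (c : V → ℕ) (y : ℕ → V) (l t0 t1 : ℕ)
  (C L : ℕ → Finset V), Frame A c y l t0 t1 C L →
  ∀ B ∈ Gd A c y l t0 t1, Ty2 A c y l (L B) →
    (Tc A c y l (C B)).card * (Rp A c y l t0 B).card +
        (L B).card * (Rp A c y l t0 B \ C B).card ≤
      (L B).card * (A.D + t0) + (Tc A c y l (C B)).card * (2 * A.D + t0)

/-- **HBD** (two easy facts). Uses FCD, CLC.
Proof. (1) `x ∈ C B` (nonempty); for `x' ∈ Rp B \ C B` we have `c x' ∈ Fb x` by `closed`, `c` is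
injective on the block, `#Fb x ≤ D + exc x ≤ D + t0`. (2) The tight vertices of `C B` are not in
`L B` (CLC), `L B ⊆ C B`, `C B ⊆ Rp B`. (3) `Tn` is the disjoint union of `Tc` and `Tv`. -/
def StHBD : Prop := ∀ (V : Type) [Fintype V] (A : Dat V) (c : V → ℕ) (y : ℕ → V) (l t0 t1 : ℕ)
  (C L : ℕ → Finset V), Frame A c y l t0 t1 C L →
  ∀ B ∈ Gd A c y l t0 t1,
    (Rp A c y l t0 B \ C B).card ≤ A.D + t0 ∧
    (Tn A c y l (C B)).card + (L B).card ≤ (C B).card ∧
    (Rp A c y l t0 B \ C B).card + (C B).card = (Rp A c y l t0 B).card ∧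
    (Tn A c y l (C B)).card = (Tc A c y l (C B)).card + (Tv A c y l (C B)).card

/-! ### Counting -/

/-- **FUL** (all dominated vertices). Uses BFB, CZ.
Proof. `0 < l` (CZ). Every `B ∈ S` is the block of a vertex (BFB), so it has `k` vertices. A vertex
of a block of `S` which is not in `Und` has a neighbour in `K`, so it is in `⋃ z ∈ K, N z`. So
`k * s ≤ ∑ B ∈ S, #Und B + ∑ z ∈ K, #N z ≤ ∑ B ∈ S, #Und B + (2 s - 2) * D`. -/
def StFUL : Prop := ∀ (V : Type) [Fintype V] (A : Dat V) (c : V → ℕ) (y : ℕ → V) (l : ℕ),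
  MaxSt A c y l →
  A.k * (Sb A c y l).card ≤ 2 * A.D * (Sb A c y l).card +
    ∑ B ∈ Sb A c y l, (Und A c y l B).card

/-- **CCI** (domination of the components with multiplicities). Uses BFB, CZ, CLA.
Proof. Let `U = ⋃ B ∈ Gd, C B` (disjoint union, `C B` is contained in the block `B`). For `z ∈ U` let
`w z` be the number of `m ∈ KM` with `z ∈ Us m`. `w z` is the number of `m ∈ Kn z` which are marks
and have a `v ∈ Und (b m)` with `c v = c z`; so `w z ≤ #Kn z`, and equality implies that `z` is tight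
(`Kn z` is nonempty by CLA). So `1 + w z ≤ #Kn z + [z tight]`. Sum over `U`:
`#U + ∑ m ∈ KM, #(Us m ∩ U) ≤ ∑ a ∈ K, #(N a ∩ U) + #{tight z ∈ U}`. For `a = m ∈ KM`:
`#(N m ∩ U) + #(Us m \ U) ≤ #N m ≤ D` (`Us m ⊆ N m`). For `a ∈ K \ Mk = Cen` (`l - 1 ≤ s` many):
`#(N a ∩ U) ≤ D`. Add `∑ m ∈ KM, #(Us m \ U)` on both sides:
`#U + ∑ m ∈ KM, #Us m ≤ D s + D (l - 1) + #{tight z ∈ U}`. -/
def StCCI : Prop := ∀ (V : Type) [Fintype V] (A : Dat V) (c : V → ℕ) (y : ℕ → V) (l t0 t1 : ℕ)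
  (C L : ℕ → Finset V), Frame A c y l t0 t1 C L →
  ∑ B ∈ Gd A c y l t0 t1, (C B).card + ∑ m ∈ KM A c y l, (Us A c y l m).card ≤
    2 * A.D * (Sb A c y l).card + ∑ B ∈ Gd A c y l t0 t1, (Tn A c y l (C B)).card

/-- **SIW** (unused neighbours of marks). Uses BFB, CZ, CLA, CLC.
Proof. Let `B ∈ G2`, `x ∈ L B ⊆ C B`. `Kn x` is nonempty (CLA), all its elements are marks
(`Ty2`), and `TightAt x (c x)` fails (CLC), so there is `m ∈ Kn x`, `m ∈ KM`, with `c v ≠ c x` for
all `v ∈ Und (b m)`, i.e. `x ∈ N m \ Us m`. So the disjoint sets `L B`, `B ∈ G2`, are contained in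
`⋃ m ∈ KM, N m \ Us m`, and `#(N m \ Us m) ≤ D - #Us m`; `#KM = s`. -/
def StSIW : Prop := ∀ (V : Type) [Fintype V] (A : Dat V) (c : V → ℕ) (y : ℕ → V) (l t0 t1 : ℕ)
  (C L : ℕ → Finset V), Frame A c y l t0 t1 C L →
  ∑ m ∈ KM A c y l, (Us A c y l m).card + ∑ B ∈ G2 A c y l t0 t1 L, (L B).card ≤
    A.D * (Sb A c y l).card

/-- **NCT** (non-critical tight vertices). Uses BFB, CZ, UNF.
Proof. For `m ∈ KM` and `v ∈ Und (b m)` let `Z m v` be the set of `z ∈ N m` with `c z = c v`; it is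
nonempty by UNF, and `Us m` is the disjoint union of the `Z m v` (`c` is injective on the block
`b m`). So `∑ v ∈ Und (b m), (#Z m v - 1) = #Us m - #Und (b m)`. Let `z ∈ Tv (C B)`, `B` good. As
`z` is tight, there is `m ∈ Kn z`, a mark, so `m ∈ KM`, and `v ∈ Und (b m)` with `c v = c z`, so
`z ∈ Z m v`; as `z` is not critical, there is `z' ∈ N m`, `c z' = c z`, `z' ≠ z`, so
`#Z m v ≥ 2`. So `⋃ B, Tv (C B)` (disjoint union) is contained in the union of the `Z m v` with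
`#Z m v ≥ 2`, and for these `#Z m v ≤ 2 (#Z m v - 1)`. Finally
`∑ B ∈ S, #Und B = ∑ m ∈ KM, #Und (b m)` (`b : KM → S` is a bijection, BFB). -/
def StNCT : Prop := ∀ (V : Type) [Fintype V] (A : Dat V) (c : V → ℕ) (y : ℕ → V) (l t0 t1 : ℕ)
  (C L : ℕ → Finset V), Frame A c y l t0 t1 C L →
  ∑ B ∈ Gd A c y l t0 t1, (Tv A c y l (C B)).card + 2 * ∑ B ∈ Sb A c y l, (Und A c y l B).card ≤
    2 * ∑ m ∈ KM A c y l, (Us A c y l m).card

/-! ### Arithmetic -/

/-- **PB** (one block of the second type).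
Proof. Put `K0 = r - D - D' > 0`. `a ≤ l (D' - h) / K0`, so
`e := h + a - D' ≤ (D' - h) (l - K0) / K0 ≤ D' (l - K0) / K0` (`0 ≤ h`, `K0 ≤ l`,
`0 ≤ D' - h ≤ D'`). Also `e + v ≤ r - l - D'`. With `β = D' / r ∈ [1/3, 1)` (`r ≤ 3 D'`, and
`r > D'`): `e + v / 3 ≤ e + β v = (1 - β) e + β (e + v) ≤
((r - D') / r) (D' (l - K0) / K0) + (D' / r) (r - l - D') = D' D l / (r K0) ≤ ρ l`. -/
def StPB : Prop := ∀ D D' r h l a v ρ : ℝ, 0 ≤ D → 0 < D' → 0 ≤ h → h ≤ D' → 0 ≤ v →
  0 < r - D - D' → r - D - D' ≤ l → a * (r - D - D') ≤ l * (D' - h) → h + a + v + l ≤ r →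
  r ≤ 3 * D' → D' * D ≤ ρ * (r * (r - D - D')) → (h + a - D') + v / 3 ≤ ρ * l

/-- The numerical information on a frame: `S` the blocks, `G` the good blocks, `T` the blocks of the
second type, `q = ∑ #Und`, `sg = ∑ #Us`, `r = #Rp`, `h = #(Rp \ C)`, `l = #L`, `n = #Tn (C B)`,
`a = #Tc`, `v = #Tv`. -/
structure Num (D k t0 t1 : ℕ) (S G T : Finset ℕ) (q sg : ℕ) (r h l n a v : ℕ → ℕ) : Prop where
  ne : S.Nonempty
  sub : G ⊆ S
  sub2 : T ⊆ G
  good : ∀ B ∈ G, k ≤ r B + t1 ∧ r B ≤ k ∧ h B ≤ D + t0 ∧ h B + n B + l B ≤ r B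
  one : ∀ B ∈ G, B ∉ T → h B + n B ≤ D + t0
  two : ∀ B ∈ T, n B = a B + v B ∧ r B ≤ l B + 2 * D + t0 ∧
    a B * r B + l B * h B ≤ l B * (D + t0) + a B * (2 * D + t0)
  ful : k * S.card ≤ 2 * D * S.card + q
  cci : ∑ B ∈ G, (r B - h B) + sg ≤ 2 * D * S.card + ∑ B ∈ G, n B
  siw : sg + ∑ B ∈ T, l B ≤ D * S.card
  nct : ∑ B ∈ T, v B + 2 * q ≤ 2 * sg
  bad : (S \ G).card * t1 * (t0 + 1) ≤ (t0 + 1 + D) * S.card

/-- **FNA** (linear programming). Uses PB.
Proof. Put `D' = D + t0`, `s = #S > 0`. From `ful`: `k s ≤ 2 D s + q`.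
`∑ G r ≥ (k - t1) #G ≥ k s - t1 s - k #(S \ G)`, `h ≤ r` on `G`, so `cci` gives
`k s - t1 s - k #(S \ G) + sg ≤ 2 D s + ∑ G (h + n)`, and
`∑ G (h + n) ≤ D' s + ∑ T (h + n - D')` (`one`; `#G ≤ s`; write `h + n = D' + (h + n - D')`).
On `T`: `n = a + v`. By PB (with `K0 = r - 2 D - t0 > 0` since `r ≥ k - t1`; `h ≤ D'`;
`r ≤ k ≤ 3 D ≤ 3 D'`; `two`; the hypothesis on `ρ`):
`(h + a - D') + v / 3 ≤ ρ l`. So with `X = ∑ T l`, `W = ∑ T v`:
`∑ T (h + n - D') ≤ ρ X + (2/3) W`. By `nct` `W ≤ 2 (sg - q)`, by `siw` `X ≤ D s - sg`.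
Adding: `2 k s ≤ t1 s + k #(S \ G) + 4 D s + D' s + q - sg + ρ (D s - sg) + (2/3) * 2 (sg - q)`.
Put `w = sg - q ≥ 0`, and `D s - sg = D s - q - w ≤ 3 D s - k s - w` (from `ful`). So
`2 k s ≤ (5 D + t0 + t1) s + k #(S \ G) + ρ (3 D - k) s + w (-1 - ρ + 4/3)` and `1/3 ≤ ρ`.
Finally `k #(S \ G) t1 (t0 + 1) ≤ k (t0 + 1 + D) s`. -/
def StFNA : Prop := ∀ (D k t0 t1 : ℕ) (S G T : Finset ℕ) (q sg : ℕ) (r h l n a v : ℕ → ℕ) (ρ : ℝ),
  Num D k t0 t1 S G T q sg r h l n a v → 0 < D → 0 < t1 → k ≤ 3 * D → 2 * D + t0 + t1 < k →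
  1 / 3 ≤ ρ →
  (∀ x : ℝ, (k : ℝ) - t1 ≤ x → ((D : ℝ) + t0) * D ≤ ρ * (x * (x - D - (D + t0)))) →
  2 * (k : ℝ) ≤ 5 * D + t0 + t1 + ρ * (3 * D - k) + k * (t0 + 1 + D) / (t1 * (t0 + 1))

/-- **FNB** (choice of the parameters). Uses FNA.
Proof. We may assume `c0 ≤ 27/10` (replace `c0` by `min c0 (27/10)`). Since
`(c0 ^ 2 - 3 c0 + 1) (2 c0 - 3) > 0` we have `5 + (3 - c0) / (c0 (c0 - 2)) < 2 c0`, and
`5 + (3 - c0) / 3 < 2 c0`. By continuity there is `ε ∈ (0, 1/100)` with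
`5 + 2 ε + ρ (3 - c0) ≤ 2 c0`, `ρ = max (1/3) ((1 + ε) / ((c0 - ε) (c0 - 2 - 2 ε)))`. Let
`C0 = 10 + 100 / ε + 100 / ε ^ 2`. Let `c0 D + C0 ≤ k`.
If `k > 3 D`: take `t0 = t1 = 0`; `ful`, `nct`, `siw` give `k s ≤ 2 D s + q ≤ 2 D s + sg ≤ 3 D s`,
contradiction. If `k ≤ 3 D`: then `D > 0`; take `t0 = ⌊ε D⌋`, `t1 = ⌊ε D⌋ + 1`;
`2 D + t0 + t1 < k` since `(2 + 2 ε) D + 1 < c0 D + C0`. Hypothesis of FNA: for
`x ≥ k - t1 ≥ (c0 - ε) D + C0 - 1 ≥ (c0 - ε) D`: `x - 2 D - t0 ≥ (c0 - 2 - 2 ε) D`, and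
`(D + t0) D ≤ (1 + ε) D^2`. FNA gives, with `t0 + t1 ≤ 2 ε D + 1`,
`k (t0 + 1 + D) / (t1 (t0 + 1)) = k / t1 + k D / (t1 (t0 + 1)) ≤ 3 / ε + 3 / ε ^ 2`
(`t1, t0 + 1 ≥ ε D`): `2 c0 D + 2 C0 ≤ 2 k ≤ (5 + 2 ε) D + 1 + ρ (3 - c0) D + 3 / ε + 3 / ε^2`,
contradiction. -/
def StFNB : Prop := ∀ c0 : ℝ, (3 + Real.sqrt 5) / 2 < c0 → ∃ C0 : ℝ, 0 < C0 ∧
  ∀ D k : ℕ, c0 * D + C0 ≤ k → ∃ t0 t1 : ℕ, 2 * D + t0 + t1 < k ∧
    ∀ (S G T : Finset ℕ) (q sg : ℕ) (r h l n a v : ℕ → ℕ),
      ¬ Num D k t0 t1 S G T q sg r h l n a v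

/-- **NUM** (a frame gives the numerical information). Uses BFB, CZ, RPC, TYA, TYB, AVG, HBD, FUL,
CCI, SIW, NCT, BDB, UNF.
Proof. Collect the statements. `S` is nonempty (it contains `b u`). `good`: RPC and the definition of
`Gd`; HBD. `one`: TYA and `h + n + l ≤ r`. `two`: HBD, TYB (with any `m ∈ KM`, for instance `u`;
`#(L B \ N m) ≤ #L B`), AVG. `cci`: `#C B = r - h`. `nct`: sum over `G2 ⊆ Gd`. -/
def StNUM : Prop := ∀ (V : Type) [Fintype V] (A : Dat V) (c : V → ℕ) (y : ℕ → V) (l t0 t1 : ℕ)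
  (C L : ℕ → Finset V), Frame A c y l t0 t1 C L →
  Num A.D A.k t0 t1 (Sb A c y l) (Gd A c y l t0 t1) (G2 A c y l t0 t1 L)
    (∑ B ∈ Sb A c y l, (Und A c y l B).card) (∑ m ∈ KM A c y l, (Us A c y l m).card)
    (fun B => (Rp A c y l t0 B).card) (fun B => (Rp A c y l t0 B \ C B).card)
    (fun B => (L B).card) (fun B => (Tn A c y l (C B)).card) (fun B => (Tc A c y l (C B)).card)
    (fun B => (Tv A c y l (C B)).card)

/-- **MN** (main statement for systems). Uses EXM, FRM, NUM, FNB. -/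
def StMN : Prop := ∀ c0 : ℝ, (3 + Real.sqrt 5) / 2 < c0 → ∃ C0 : ℝ, 0 < C0 ∧
  ∀ (V : Type) [Fintype V] (A : Sys V), c0 * A.D + C0 ≤ A.k →
    ∃ c : V → ℕ, Lab A c ∧ ∀ v, c v < A.k

end SX
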